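import Mathlib
import Pool.Agent.H34.TreeLike

namespace Pool.Agent.Results.MP_75f5df_co.Never
open Pool.Agent.H34.TreeLikeDefs

/-- For `2 ≤ m, n ≤ ℵ₀` with `m` or `n` infinite, the tree-like graph `T_{m,n}` has a
non-amenable automorphism group. -/
theorem result (m n : Cardinal.{0}) (hm2 : 2 ≤ m) (_hm : m ≤ Cardinal.aleph0) (hn2 : 2 ≤ n)
    (hn : n ≤ Cardinal.aleph0) (h : m = Cardinal.aleph0 ∨ n = Cardinal.aleph0) :
    ∃ (V : Type) (G : SimpleGraph V), IsTreeLike G m n ∧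
      ¬ @IsAmenable (G ≃g G) _ (autTop G) :=
  Pool.Agent.H34.TreeLike.main m n hm2 hn2 hn h

end Pool.Agent.Results.MP_75f5df_co.Never
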